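import Pool.Agent.N964.GV.Stm

set_option autoImplicit false

/-!
Project GV (helper964), task B (helper885): the terms of the sum over the levels.
-/

namespace Pool.Agent.N885.GV

open Pool.Agent.N964.GV

set_option maxHeartbeats 1600000 in
theorem num : S_num := by
  intro k κ B hk hκ hB
  have hk1 : (1 : ℝ) ≤ k := by exact_mod_cast hk
  have hk0 : (0 : ℝ) ≤ k := by linarith
  have hlB : 0 ≤ Real.log B := Real.log_nonneg hB
  set m0 : ℝ := Real.exp (k * Real.log 4 + 1 + Real.log B) with hm0
  have hl4 : 0 ≤ Real.log 4 := Real.log_nonneg (by norm_num)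
  have hm01 : 1 ≤ m0 := by
    rw [hm0]
    exact Real.one_le_exp (by positivity)
  set c : ℝ := k + 1 + Real.log B with hc
  refine ⟨Real.exp c + (1 + 3 * k), min (1 / 4) (Real.exp (-m0)), by positivity,
    lt_min (by norm_num) (Real.exp_pos _), min_le_left _ _, ?_⟩
  intro δ τ y V hδ hδ0 hV hVτ hy hyp
  set m : ℝ := Real.log (1 / δ) with hm
  have hδ1 : δ ≤ 1 / 4 := hδ0.trans (min_le_left _ _)
  have hmlog : m = -Real.log δ := by rw [hm, one_div, Real.log_inv]
  have hm0m : m0 ≤ m := by
    have h1 : Real.log δ ≤ -m0 := by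
      rw [← Real.log_exp (-m0)]
      exact Real.log_le_log hδ (hδ0.trans (min_le_right _ _))
    rw [hmlog]
    linarith
  have hm1 : 1 ≤ m := hm01.trans hm0m
  have hmpos : 0 < m := by linarith
  have hV1 : (1 : ℝ) ≤ V := by exact_mod_cast hV
  have hV0 : (0 : ℝ) < V := by linarith
  have hτ : 0 < τ := by linarith
  have hy0 : 0 < y := by linarith
  have hly : 0 ≤ Real.log y := Real.log_nonneg hy
  have hZ0 : 0 ≤ 2 * κ * Real.log y := by positivity
  -- the base
  have hbpos : 0 < B * m ^ 2 * y ^ (-(2 * κ)) / V := by positivity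
  have hlogb : Real.log (B * m ^ 2 * y ^ (-(2 * κ)) / V) =
      Real.log B + 2 * Real.log m - 2 * κ * Real.log y - Real.log V := by
    have e1 : B ≠ 0 := by linarith
    have e2 : m ^ 2 ≠ 0 := by positivity
    have e3 : y ^ (-(2 * κ)) ≠ 0 := (Real.rpow_pos_of_pos hy0 _).ne'
    rw [Real.log_div (mul_ne_zero (mul_ne_zero e1 e2) e3) hV0.ne',
      Real.log_mul (mul_ne_zero e1 e2) e3, Real.log_mul e1 e2, Real.log_pow, Real.log_rpow hy0]
    push_cast
    ring
  have hpow : (B * m ^ 2 * y ^ (-(2 * κ)) / V) ^ V =
      Real.exp (V * Real.log (B * m ^ 2 * y ^ (-(2 * κ)) / V)) := by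
    rw [Real.exp_nat_mul, Real.exp_log hbpos]
  rw [hpow, ← Real.exp_add, Real.exp_le_exp, hlogb]
  -- the logarithm
  have hτδ : 0 < τ * δ := by positivity
  set L : ℝ := Real.log (1 + ((V : ℝ) + 1) / (τ * δ)) with hL
  set L' : ℝ := Real.log (1 + 2 * V / (τ * δ)) with hL'
  have hLL' : L ≤ L' := by
    rw [hL, hL']
    refine Real.log_le_log (by positivity) ?_
    have : ((V : ℝ) + 1) / (τ * δ) ≤ 2 * V / (τ * δ) := by
      apply div_le_div_of_nonneg_right _ hτδ.le
      linarith
    linarith
  have hL3 : L ≤ m + 2 := by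
    have h1 : 1 + ((V : ℝ) + 1) / (τ * δ) ≤ 3 * (1 / δ) := by
      have h2 : ((V : ℝ) + 1) / (τ * δ) ≤ 2 * (1 / δ) := by
        rw [div_le_iff₀ hτδ]
        have : 2 * (1 / δ) * (τ * δ) = 2 * τ := by field_simp
        rw [this]
        linarith
      have h3 : 1 ≤ 1 / δ := by
        rw [le_div_iff₀ hδ]
        linarith
      linarith
    have h2 : L ≤ Real.log (3 * (1 / δ)) := by
      rw [hL]
      exact Real.log_le_log (by positivity) h1
    rw [Real.log_mul (by norm_num) (by positivity), ← hm] at h2
    have h3 : Real.log 3 ≤ 2 := by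
      have := Real.log_le_sub_one_of_pos (show (0 : ℝ) < 3 by norm_num)
      linarith
    linarith
  have hfirst : k * ((V : ℝ) + 1) * L + ((V : ℝ) + 1) ≤
      V * (k * L' + 1) + (1 + 3 * k) * m ^ 2 := by
    have h1 : k * ((V : ℝ) + 1) * L + ((V : ℝ) + 1) = V * (k * L + 1) + (k * L + 1) := by ring
    have h2 : (V : ℝ) * (k * L + 1) ≤ V * (k * L' + 1) := by
      apply mul_le_mul_of_nonneg_left _ hV0.le
      have := mul_le_mul_of_nonneg_left hLL' hk0
      linarith
    have h3 : k * L + 1 ≤ (1 + 3 * k) * m ^ 2 := by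
      have h4 : k * L ≤ k * (m + 2) := mul_le_mul_of_nonneg_left hL3 hk0
      have h5 : m ≤ m ^ 2 := by nlinarith
      have h6 : 1 ≤ m ^ 2 := by nlinarith
      nlinarith
    linarith
  have hbr : (V : ℝ) * (k * L' + 1 + Real.log B + 2 * Real.log m - 2 * κ * Real.log y - Real.log V) ≤
      Real.exp c * m ^ 2 := by
    rcases le_or_gt (2 * V / (τ * δ)) 1 with hcase | hcase
    · -- small level
      have h1 : L' ≤ 1 := by
        have h2 : L' ≤ Real.log 2 := by
          rw [hL']
          refine Real.log_le_log (by positivity) (by linarith)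
        have h3 : Real.log 2 ≤ 1 := by
          have := Real.log_le_sub_one_of_pos (show (0 : ℝ) < 2 by norm_num)
          linarith
        linarith
      have h2 : k * L' + 1 + Real.log B + 2 * Real.log m - 2 * κ * Real.log y - Real.log V ≤
          c + 2 * Real.log m - Real.log V := by
        have := mul_le_mul_of_nonneg_left h1 hk0
        rw [hc]
        linarith
      have h3 : c + 2 * Real.log m - Real.log V = Real.log (Real.exp c * m ^ 2 / V) := by
        rw [Real.log_div (by positivity) hV0.ne', Real.log_mul (by positivity) (by positivity),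
          Real.log_exp, Real.log_pow]
        push_cast
        ring
      have h4 : Real.log (Real.exp c * m ^ 2 / V) ≤ Real.exp c * m ^ 2 / V - 1 :=
        Real.log_le_sub_one_of_pos (by positivity)
      have h5 := mul_le_mul_of_nonneg_left (h2.trans (h3.le.trans h4)) hV0.le
      refine h5.trans ?_
      have h6 : (V : ℝ) * (Real.exp c * m ^ 2 / V - 1) = Real.exp c * m ^ 2 - V := by
        field_simp
      rw [h6]
      linarith
    · -- large level
      have h1 : L' ≤ Real.log 4 + Real.log V - Real.log τ + m := by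
        have h2 : L' ≤ Real.log (4 * V / (τ * δ)) := by
          rw [hL']
          refine Real.log_le_log (by positivity) ?_
          have : 4 * (V : ℝ) / (τ * δ) = 2 * V / (τ * δ) + 2 * V / (τ * δ) := by ring
          rw [this]
          linarith
        rw [Real.log_div (by positivity) hτδ.ne', Real.log_mul (by norm_num) hV0.ne',
          Real.log_mul hτ.ne' hδ.ne'] at h2
        rw [hmlog]
        linarith
      have h2 : k * m + 3 * Real.log m - Real.log τ ≤ 2 * κ * Real.log y := by
        have h3 : Real.log ((1 / δ) ^ k * m ^ 3 / τ) ≤ Real.log (y ^ (2 * κ)) :=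
          Real.log_le_log (by positivity) hyp
        rw [Real.log_div (by positivity) hτ.ne', Real.log_mul (by positivity) (by positivity),
          Real.log_pow, Real.log_pow, Real.log_rpow hy0, ← hm] at h3
        push_cast at h3
        linarith
      have h3 : Real.log V ≤ Real.log τ := Real.log_le_log hV0 hVτ
      have h4 : k * Real.log 4 + 1 + Real.log B ≤ Real.log m := by
        rw [← Real.log_exp (k * Real.log 4 + 1 + Real.log B)]
        exact Real.log_le_log (Real.exp_pos _) hm0m
      have h5 : k * L' + 1 + Real.log B + 2 * Real.log m - 2 * κ * Real.log y - Real.log V ≤ 0 := by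
        have h6 := mul_le_mul_of_nonneg_left h1 hk0
        have h7 : 0 ≤ ((k : ℝ) - 1) * (Real.log τ - Real.log V) :=
          mul_nonneg (by linarith) (by linarith)
        nlinarith
      have h6 : (V : ℝ) * (k * L' + 1 + Real.log B + 2 * Real.log m - 2 * κ * Real.log y -
          Real.log V) ≤ 0 := mul_nonpos_of_nonneg_of_nonpos hV0.le h5
      refine h6.trans (by positivity)
  have hfin : (V : ℝ) * (Real.log B + 2 * Real.log m - 2 * κ * Real.log y - Real.log V) +
      V * (k * L' + 1) =
      V * (k * L' + 1 + Real.log B + 2 * Real.log m - 2 * κ * Real.log y - Real.log V) := by ring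
  have hC : (Real.exp c + (1 + 3 * k)) * m ^ 2 = Real.exp c * m ^ 2 + (1 + 3 * k) * m ^ 2 := by ring
  rw [hC]
  linarith

end Pool.Agent.N885.GV
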